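import Mathlib

/-!
The numerical ends for the exponent 40.
-/

set_option autoImplicit false

namespace Pool.Agent.Lib_helper80.PLH

theorem rpow40 {I : ℝ} (hI : 0 ≤ I) : (I ^ (1 / 40 : ℝ)) ^ 40 = I := by
  rw [← Real.rpow_natCast, ← Real.rpow_mul hI]; norm_num

/-- the covariance of one leaf -/
theorem leaf_end40 {I x : ℝ} {d k : ℕ} (hI : 0 ≤ I)
    (h : |x| ^ 40 ≤ 2 ^ (400 * k + 61) * (d : ℝ) ^ 40 * I) :
    |x| ≤ 3 * 1024 ^ k * d * I ^ (1 / 40 : ℝ) := by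
  have hr : 0 ≤ I ^ (1 / 40 : ℝ) := Real.rpow_nonneg hI _
  have hd : 0 ≤ (d : ℝ) := Nat.cast_nonneg d
  have hk : (0 : ℝ) ≤ 1024 ^ k := pow_nonneg (by norm_num) k
  have hR : 0 ≤ 3 * 1024 ^ k * (d : ℝ) * I ^ (1 / 40 : ℝ) :=
    mul_nonneg (mul_nonneg (mul_nonneg (by norm_num) hk) hd) hr
  have e1 : (2 : ℝ) ^ (400 * k + 61) = 2 ^ 61 * (1024 ^ k) ^ 40 := by
    have e : (1024 : ℝ) = 2 ^ 10 := by norm_num
    rw [pow_add, e, ← pow_mul, ← pow_mul, mul_comm]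
    congr 2
    ring
  have key : |x| ^ 40 ≤ (3 * 1024 ^ k * (d : ℝ) * I ^ (1 / 40 : ℝ)) ^ 40 := by
    refine h.trans ?_
    rw [mul_pow _ (I ^ (1 / 40 : ℝ)), rpow40 hI, mul_pow, mul_pow, e1]
    have h3 : (2 : ℝ) ^ 61 ≤ 3 ^ 40 := by norm_num
    obtain ⟨A, hA⟩ : ∃ A : ℝ, A = ((1024 : ℝ) ^ k) ^ 40 := ⟨_, rfl⟩
    obtain ⟨B, hB⟩ : ∃ B : ℝ, B = (d : ℝ) ^ 40 := ⟨_, rfl⟩
    have hA0 : 0 ≤ A := by rw [hA]; exact pow_nonneg hk 40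
    have hB0 : 0 ≤ B := by rw [hB]; exact pow_nonneg hd 40
    rw [← hA, ← hB]
    exact mul_le_mul_of_nonneg_right (mul_le_mul_of_nonneg_right
      (mul_le_mul_of_nonneg_right h3 hA0) hB0) hI
  exact (pow_le_pow_iff_left₀ (abs_nonneg x) hR (by norm_num)).mp key

/-- one query: `I ^ (1/2) ≤ I ^ (1/40)` for `0 ≤ I ≤ 1` -/
theorem query_end40 {I x : ℝ} (hI : 0 ≤ I) (hI1 : I ≤ 1) (h : x ^ 2 ≤ I) :
    x ≤ I ^ (1 / 40 : ℝ) := by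
  have h1 : x ≤ Real.sqrt I := Real.le_sqrt_of_sq_le h
  refine h1.trans ?_
  rw [Real.sqrt_eq_rpow]
  rcases hI.eq_or_lt with h0 | h0
  · rw [← h0, Real.zero_rpow (by norm_num), Real.zero_rpow (by norm_num)]
  · exact Real.rpow_le_rpow_of_exponent_ge h0 hI1 (by norm_num)

/-- the end of the theorem -/
theorem final_end40 {v c I : ℝ} (hv : 0 < v) (hI : 0 ≤ I)
    (h : v ≤ c * I ^ (1 / 40 : ℝ)) : (v / c) ^ 40 ≤ I := by
  have hr : 0 ≤ I ^ (1 / 40 : ℝ) := Real.rpow_nonneg hI _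
  have hc : 0 < c := by
    by_contra hc
    push Not at hc
    have : c * I ^ (1 / 40 : ℝ) ≤ 0 := mul_nonpos_of_nonpos_of_nonneg hc hr
    linarith
  have h1 : v / c ≤ I ^ (1 / 40 : ℝ) := by
    rw [div_le_iff₀ hc]; linarith [mul_comm c (I ^ (1 / 40 : ℝ))]
  have h0 : 0 ≤ v / c := div_nonneg hv.le hc.le
  calc (v / c) ^ 40 ≤ (I ^ (1 / 40 : ℝ)) ^ 40 := pow_le_pow_left₀ h0 h1 40
    _ = I := rpow40 hI

end Pool.Agent.Lib_helper80.PLH
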