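import Pool.Agent.Lib_helper84.PLH.Step

/-!
Group-wise pluriharmonic functions on the discrete cube: the four pointwise inequalities for the
fourth power.
-/

namespace Pool.Agent.PLH

open Complex ComplexConjugate

lemma nrm4 (z : ℂ) : ‖z‖ ^ 4 = (z.re ^ 2 + z.im ^ 2) ^ 2 := by
  have h : ‖z‖ ^ 2 = z.re ^ 2 + z.im ^ 2 := by
    rw [← Complex.normSq_eq_norm_sq, Complex.normSq_apply]; ring
  calc ‖z‖ ^ 4 = (‖z‖ ^ 2) ^ 2 := by ring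
    _ = _ := by rw [h]

lemma nrm2 (z : ℂ) : ‖z‖ ^ 2 = z.re ^ 2 + z.im ^ 2 := by
  rw [← Complex.normSq_eq_norm_sq, Complex.normSq_apply]; ring

theorem p4 (a b : ℂ) :
    (‖a‖ ^ 2 + ‖b‖ ^ 2) ^ 2 ≤ 12 * ‖a + conj b‖ ^ 4 + 8 * (a ^ 2 * b ^ 2).re := by
  rw [nrm4, nrm2, nrm2]
  obtain ⟨a1, a2⟩ := a
  obtain ⟨b1, b2⟩ := b
  simp only [pow_two, Complex.add_re, Complex.add_im, Complex.mul_re, Complex.mul_im,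
    Complex.conj_re, Complex.conj_im]
  nlinarith [sq_nonneg (3 * (a1^2+a2^2+b1^2+b2^2) + 8 * (a1*b1 - a2*b2)),
    sq_nonneg (a1^2+a2^2-b1^2-b2^2)]

theorem r4 (a b A B : ℂ) :
    2 * ‖a + conj b‖ ^ 4 - 8 * (a ^ 2 * b ^ 2).re ≤ (1/4 : ℝ) * ∑ x : Bool × Bool,
      (2 * ‖(a + zt x * A) + conj (b + zt x * B)‖ ^ 4
        - 8 * ((a + zt x * A) ^ 2 * (b + zt x * B) ^ 2).re) := by
  rw [sumQ]
  simp only [zt, nrm4]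
  obtain ⟨a1, a2⟩ := a
  obtain ⟨b1, b2⟩ := b
  obtain ⟨A1, A2⟩ := A
  obtain ⟨B1, B2⟩ := B
  simp only [pow_two, Complex.add_re, Complex.add_im, Complex.mul_re, Complex.mul_im,
    Complex.conj_re, Complex.conj_im, Complex.neg_re, Complex.neg_im, Complex.I_re, Complex.I_im,
    Complex.one_re, Complex.one_im]
  obtain ⟨x1, hx1⟩ : ∃ x1, x1 = a1 + b1 := ⟨_, rfl⟩
  obtain ⟨x2, hx2⟩ : ∃ x2, x2 = a2 - b2 := ⟨_, rfl⟩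
  have k : 0 ≤ 4*(x1^2+x2^2)*(A1^2+A2^2+B1^2+B2^2)
      + 4*((x1*A1+x2*A2+x1*B1-x2*B2)^2+(x1*A2-x2*A1+x1*B2+x2*B1)^2)
      + 2*(A1^2+A2^2+B1^2+B2^2)^2 + 8*(A1*B2+A2*B1)^2 := by positivity
  rw [hx1, hx2] at k
  linarith [k]

theorem lo4 (c X : ℂ) :
    ‖c‖ ^ 4 + 4 * ‖c‖ ^ 2 * (conj c * X).re + ‖c‖ ^ 2 * ‖X‖ ^ 2 + ‖X‖ ^ 4 / 5 ≤ ‖c + X‖ ^ 4 := by
  rw [nrm4, nrm4, nrm4, nrm2, nrm2]
  obtain ⟨c1, c2⟩ := c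
  obtain ⟨x1, x2⟩ := X
  simp only [Complex.add_re, Complex.add_im, Complex.mul_re, Complex.conj_re, Complex.conj_im]
  nlinarith [sq_nonneg (5 * (c1*x1+c2*x2) + 2 * (x1^2+x2^2)), sq_nonneg (c1*x2-c2*x1)]

theorem up4 (c w : ℂ) :
    ‖c + w‖ ^ 4 ≤ ‖c‖ ^ 4 + 4 * ‖c‖ ^ 2 * (conj c * w).re + 8 * ‖c‖ ^ 2 * ‖w‖ ^ 2
      + 3 * ‖w‖ ^ 4 := by
  rw [nrm4, nrm4, nrm4, nrm2, nrm2]
  obtain ⟨c1, c2⟩ := c
  obtain ⟨x1, x2⟩ := w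
  simp only [Complex.add_re, Complex.add_im, Complex.mul_re, Complex.conj_re, Complex.conj_im]
  nlinarith [sq_nonneg ((c1*x1+c2*x2) - (x1^2+x2^2)), sq_nonneg (c1*x2-c2*x1)]

end Pool.Agent.PLH
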