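import Mathlib

/-! # Every function of degree at most `k + 1` is pluriharmonic in groups of one pair each -/

set_option autoImplicit false

namespace Pool.Agent.Lib_helper80.PLH

open Finset

theorem sum_prod_all (n : ℕ) (p q : Fin n → ℂ) (S : Finset (Fin n)) :
    ∑ u : Fin n → Bool, ∏ i ∈ S, (p i + (-1) ^ (u i).toNat * q i * Complex.I) =
      2 ^ n * ∏ i ∈ S, p i := by
  have h1 : ∀ u : Fin n → Bool, ∏ i ∈ S, (p i + (-1) ^ (u i).toNat * q i * Complex.I) =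
      ∏ i, (if i ∈ S then p i + (-1) ^ (u i).toNat * q i * Complex.I else 1) := by
    intro u
    rw [Finset.prod_ite_mem, Finset.univ_inter]
  have h2 : ∏ i : Fin n, ∑ b : Bool, (if i ∈ S then p i + (-1) ^ b.toNat * q i * Complex.I else 1) =
      ∑ u : Fin n → Bool, ∏ i, (if i ∈ S then p i + (-1) ^ (u i).toNat * q i * Complex.I else 1) := by
    rw [Finset.prod_univ_sum, Fintype.piFinset_univ]
  have h3 : ∀ i : Fin n, ∑ b : Bool, (if i ∈ S then p i + (-1) ^ b.toNat * q i * Complex.I else 1) =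
      2 * (if i ∈ S then p i else 1) := by
    intro i
    by_cases hi : i ∈ S
    · simp [hi]
      ring
    · simp [hi]
  simp_rw [h1]
  rw [← h2]
  simp_rw [h3]
  rw [Finset.prod_mul_distrib, Finset.prod_const, Finset.card_univ, Fintype.card_fin,
    Finset.prod_ite_mem, Finset.univ_inter]

theorem all_leaf (n : ℕ) (a : Finset (Fin n) → ℝ) (y : Fin n ⊕ Fin n → Bool) :
    (∑ u : Fin n → Bool, ∑ S, (((a S / 2 ^ n : ℝ) : ℂ)) * ∏ i ∈ S, ((-1) ^ (y (Sum.inl i)).toNat +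
      (-1) ^ (u (id i)).toNat * (-1) ^ (y (Sum.inr i)).toNat * Complex.I)).re =
      ∑ S, a S * ∏ i ∈ S, (-1 : ℝ) ^ (y (Sum.inl i)).toNat := by
  have h1 : ∑ u : Fin n → Bool, ∑ S, (((a S / 2 ^ n : ℝ) : ℂ)) *
      ∏ i ∈ S, ((-1 : ℂ) ^ (y (Sum.inl i)).toNat +
      (-1) ^ (u (id i)).toNat * (-1) ^ (y (Sum.inr i)).toNat * Complex.I) =
      ((∑ S, a S * ∏ i ∈ S, (-1 : ℝ) ^ (y (Sum.inl i)).toNat : ℝ) : ℂ) := by
    rw [Finset.sum_comm]
    push_cast
    refine Finset.sum_congr rfl fun S _ => ?_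
    rw [← Finset.mul_sum]
    have h2 := sum_prod_all n (fun i => (-1 : ℂ) ^ (y (Sum.inl i)).toNat)
      (fun i => (-1 : ℂ) ^ (y (Sum.inr i)).toNat) S
    simp only [id] at *
    rw [h2]
    have h3 : (2 : ℂ) ^ n ≠ 0 := pow_ne_zero n two_ne_zero
    field_simp
  rw [h1, Complex.ofReal_re]

/-- the same for variables indexed by `V` -/
theorem all_leaf_V {V : Type} [Fintype V] [DecidableEq V] {n : ℕ} (e : V ≃ Fin n)
    (a : Finset V → ℝ) (y : Fin n ⊕ Fin n → Bool) :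
    ∑ S, a S * ∏ v ∈ S, (-1 : ℝ) ^ (y (Sum.inl (e v))).toNat =
    (∑ u : Fin n → Bool, ∑ S, (((a (S.map e.symm.toEmbedding) / 2 ^ n : ℝ) : ℂ)) *
      ∏ i ∈ S, ((-1) ^ (y (Sum.inl i)).toNat +
      (-1) ^ (u (id i)).toNat * (-1) ^ (y (Sum.inr i)).toNat * Complex.I)).re := by
  rw [all_leaf n (fun S => a (S.map e.symm.toEmbedding)) y]
  rw [← Equiv.sum_comp (Equiv.finsetCongr e)]
  refine Finset.sum_congr rfl fun S _ => ?_
  congr 1
  · congr 1
    ext v
    simp [Equiv.finsetCongr_apply]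
  · simp [Equiv.finsetCongr_apply]

end Pool.Agent.Lib_helper80.PLH
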