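import Pool.Agent.Lib_helper23.GP.Inj

/-! # Negating some of the variables -/

set_option autoImplicit false

namespace Pool.Agent.Lib_helper80.PLH

open Pool.Agent.Lib_helper30.AA Pool.Agent.Lib_helper23.GP

variable {V : Type} [Fintype V] [DecidableEq V]

/-- the variables `v` with `e v = true` are negated -/
theorem ex_neg (e : V → Bool) (G : (V → Bool) → ℝ) :
    ex (fun x : V → Bool => G (fun v => xor (x v) (e v))) = ex G := by
  unfold ex
  congr 1
  have hinv : Function.Involutive (fun x : V → Bool => fun v => xor (x v) (e v)) := by
    intro x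
    funext v
    simp
  exact Equiv.sum_comp hinv.toPerm G

theorem inf_neg (e : V → Bool) (f : (V → Bool) → ℝ) (k : V) :
    inf (fun x : V → Bool => f (fun v => xor (x v) (e v))) k = inf f k := by
  unfold inf
  rw [← ex_neg e (fun x => ((f x - f (Function.update x k (!x k))) / 2) ^ 2)]
  refine congrArg ex (funext fun x => ?_)
  have h : (fun v => xor (Function.update x k (!x k) v) (e v)) =
      Function.update (fun v => xor (x v) (e v)) k (!xor (x k) (e k)) := by
    funext v
    by_cases hv : v = k
    · subst hv
      simp
    · simp [Function.update_of_ne hv]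
  show ((f (fun v => xor (x v) (e v)) - f (fun v => xor (Function.update x k (!x k) v) (e v))) / 2) ^ 2
    = _
  rw [h]

theorem cov_neg (e : V → Bool) (h F : (V → Bool) → ℝ) :
    cov (fun x : V → Bool => h (fun v => xor (x v) (e v))) F =
      cov h (fun x => F (fun v => xor (x v) (e v))) := by
  unfold cov
  rw [ex_neg e h, ex_neg e F, ← ex_neg e (fun x => h x * F (fun v => xor (x v) (e v)))]
  congr 2
  funext x
  simp

end Pool.Agent.Lib_helper80.PLH
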