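import Pool.Agent.Lib_helper49.Mix.Rules
import Pool.Agent.Lib_helper80.PLH.Neg

/-! # The rule of negating some of the variables -/

set_option autoImplicit false

namespace Pool.Agent.Lib_helper80.PLH

open Pool.Agent.Lib_helper30.AA Pool.Agent.Lib_helper49.Mix

variable {V : Type} [Fintype V] [DecidableEq V]

/-- negating the variables `v` with `e v = true` -/
theorem bd_neg {h : (V → Bool) → ℝ} {c : ℝ} (e : V → Bool) (H : Bd h c) :
    Bd (fun x : V → Bool => h (fun v => xor (x v) (e v))) c := by
  refine ⟨H.1, fun F I hI hI1 hF hF2 => ?_⟩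
  have h1 : Pool.Agent.Lib_helper49.Mix.cov (fun x : V → Bool => h (fun v => xor (x v) (e v))) F =
      Pool.Agent.Lib_helper49.Mix.cov h (fun x => F (fun v => xor (x v) (e v))) := cov_neg e h F
  rw [h1]
  refine H.2 _ I hI hI1 ?_ fun v => ?_
  · rw [ex_neg e fun x => F x ^ 2]
    exact hF
  · rw [inf_neg e F v]
    exact hF2 v

end Pool.Agent.Lib_helper80.PLH
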