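import Mathlib

/-!
The numerical end of the bound for one leaf.
-/

set_option autoImplicit false

namespace Pool.Agent.Lib_helper80.PLH

theorem root76 {C I : ℝ} {d : ℕ} (hC : 0 ≤ C) (hI : 0 ≤ I)
    (h : C ^ 76 ≤ 2 ^ 97 * (d : ℝ) ^ 58 * I) : C ≤ 3 * d * I ^ (1 / 76 : ℝ) := by
  have hr : 0 ≤ I ^ (1 / 76 : ℝ) := Real.rpow_nonneg hI _
  have hI76 : (I ^ (1 / 76 : ℝ)) ^ 76 = I := by
    rw [← Real.rpow_natCast, ← Real.rpow_mul hI]; norm_num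
  have key : C ^ 76 ≤ (3 * d * I ^ (1 / 76 : ℝ)) ^ 76 := by
    refine h.trans ?_
    rw [mul_pow, mul_pow, hI76]
    apply mul_le_mul_of_nonneg_right _ hI
    rcases Nat.eq_zero_or_pos d with h0 | h0
    · subst h0; norm_num
    · have h1 : (1 : ℝ) ≤ d := by exact_mod_cast h0
      have h2 : (d : ℝ) ^ 58 ≤ (d : ℝ) ^ 76 := pow_le_pow_right₀ h1 (by norm_num)
      have h3 : (2 : ℝ) ^ 97 ≤ 3 ^ 76 := by norm_num
      calc (2 : ℝ) ^ 97 * (d : ℝ) ^ 58 ≤ 3 ^ 76 * (d : ℝ) ^ 76 :=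
            mul_le_mul h3 h2 (by positivity) (by positivity)
        _ = _ := rfl
  exact (pow_le_pow_iff_left₀ hC (by positivity) (by norm_num)).mp key

/-- covariance of one leaf: `|cov| ≤ 64 ^ k * C`, `C ^ 76 ≤ 2 ^ 97 d ^ 58 I` -/
theorem leaf_end {C I cv : ℝ} {d k : ℕ} (hC : 0 ≤ C) (hI : 0 ≤ I)
    (h : C ^ 76 ≤ 2 ^ 97 * (d : ℝ) ^ 58 * I) (hcv : |cv| ≤ 64 ^ k * C) :
    |cv| ≤ 3 * 64 ^ k * d * I ^ (1 / 76 : ℝ) := by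
  have h1 := root76 hC hI h
  calc |cv| ≤ 64 ^ k * C := hcv
    _ ≤ 64 ^ k * (3 * d * I ^ (1 / 76 : ℝ)) := mul_le_mul_of_nonneg_left h1 (by positivity)
    _ = _ := by ring

/-- the same with the two influences of a pair -/
theorem leaf_end2 {C I i1 i2 cv : ℝ} {d k : ℕ} (hC : 0 ≤ C) (hI : 0 ≤ I)
    (h1 : i1 ≤ I) (h2 : i2 ≤ I) (h : C ^ 76 ≤ 2 ^ 96 * (d : ℝ) ^ 58 * (i1 + i2))
    (hcv : |cv| ≤ 64 ^ k * C) : |cv| ≤ 3 * 64 ^ k * d * I ^ (1 / 76 : ℝ) := by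
  refine leaf_end hC hI (h.trans ?_) hcv
  have h3 : i1 + i2 ≤ 2 * I := by linarith
  obtain ⟨K, hK⟩ : ∃ K : ℝ, K = 2 ^ 96 := ⟨_, rfl⟩
  have e : (2 : ℝ) ^ 97 = K * 2 := by rw [hK]; norm_num
  have hK0 : 0 ≤ K := by rw [hK]; norm_num
  rw [e, ← hK]
  have h5 : 0 ≤ K * (d : ℝ) ^ 58 := mul_nonneg hK0 (pow_nonneg (Nat.cast_nonneg d) 58)
  have h4 := mul_le_mul_of_nonneg_left h3 h5
  linarith [h4]

/-- one query: `I ^ (1/2) ≤ I ^ (1/76)` for `0 ≤ I ≤ 1` -/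
theorem query_end {I x : ℝ} (hI : 0 ≤ I) (hI1 : I ≤ 1) (h : x ^ 2 ≤ I) :
    x ≤ I ^ (1 / 76 : ℝ) := by
  have h1 : x ≤ Real.sqrt I := Real.le_sqrt_of_sq_le h
  refine h1.trans ?_
  rw [Real.sqrt_eq_rpow]
  rcases hI.eq_or_lt with h0 | h0
  · rw [← h0, Real.zero_rpow (by norm_num), Real.zero_rpow (by norm_num)]
  · exact Real.rpow_le_rpow_of_exponent_ge h0 hI1 (by norm_num)

/-- the end of the theorem -/
theorem final_end {v c I : ℝ} (hv : 0 < v) (hI : 0 ≤ I)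
    (h : v ≤ c * I ^ (1 / 76 : ℝ)) : (v / c) ^ 76 ≤ I := by
  have hr : 0 ≤ I ^ (1 / 76 : ℝ) := Real.rpow_nonneg hI _
  have hI76 : (I ^ (1 / 76 : ℝ)) ^ 76 = I := by
    rw [← Real.rpow_natCast, ← Real.rpow_mul hI]; norm_num
  have hc : 0 < c := by
    by_contra hc
    push Not at hc
    have : c * I ^ (1 / 76 : ℝ) ≤ 0 := mul_nonpos_of_nonpos_of_nonneg hc hr
    linarith
  have h1 : v / c ≤ I ^ (1 / 76 : ℝ) := by
    rw [div_le_iff₀ hc]; linarith [mul_comm c (I ^ (1 / 76 : ℝ))]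
  calc (v / c) ^ 76 ≤ (I ^ (1 / 76 : ℝ)) ^ 76 :=
        pow_le_pow_left₀ (by positivity) h1 76
    _ = I := hI76

end Pool.Agent.Lib_helper80.PLH
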