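import Pool.Agent.Lib_helper84.PLH.Step

/-!
Group-wise pluriharmonic functions on the discrete cube: the four point inequality for the
exponent `9/7`.
-/

namespace Pool.Agent.PLH

open Complex ComplexConjugate

/-- polynomial lower bound for `s ^ 9` in `w = s ^ 7 - 1` -/
lemma fp_poly (s : ℝ) (hs : 0 ≤ s) :
    1 + 9/7 * (s^7 - 1) + 9/49 * (s^7-1)^2 - 15/343 * (s^7-1)^3 ≤ s^9 := by
  have h : 343 * (s^9 - (1 + 9/7 * (s^7 - 1) + 9/49 * (s^7-1)^2 - 15/343 * (s^7-1)^3)) =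
      ((s-1)^2)^2 * (15*s^17+60*s^16+150*s^15+300*s^14+525*s^13+840*s^12+1260*s^11+1692*s^10
        +2043*s^9+2220*s^8+2130*s^7+1680*s^6+1120*s^5+700*s^4+400*s^3+200*s^2+80*s+20) := by ring
  have h2 : 0 ≤ ((s-1)^2)^2 * (15*s^17+60*s^16+150*s^15+300*s^14+525*s^13+840*s^12+1260*s^11
        +1692*s^10+2043*s^9+2220*s^8+2130*s^7+1680*s^6+1120*s^5+700*s^4+400*s^3+200*s^2+80*s
        +20) := by positivity
  linarith

/-- two point inequality, normalised -/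
lemma fp_two1 (w : ℝ) (h1 : -1 ≤ w) (h2 : w ≤ 1) :
    (1 + 2/7 * w^2) ^ (9/14 : ℝ) ≤ ((1 + w) ^ (9/7 : ℝ) + (1 - w) ^ (9/7 : ℝ)) / 2 := by
  have key : ∀ v : ℝ, -1 ≤ v → 1 + 9/7 * v + 9/49 * v^2 - 15/343 * v^3 ≤ (1 + v) ^ (9/7 : ℝ) := by
    intro v hv
    have h0 : 0 ≤ 1 + v := by linarith
    have hs : 0 ≤ (1 + v) ^ (1/7 : ℝ) := Real.rpow_nonneg h0 _
    have e7 : ((1 + v) ^ (1/7 : ℝ)) ^ 7 = 1 + v := by
      rw [← Real.rpow_natCast, ← Real.rpow_mul h0]; norm_num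
    have e9 : ((1 + v) ^ (1/7 : ℝ)) ^ 9 = (1 + v) ^ (9/7 : ℝ) := by
      rw [← Real.rpow_natCast, ← Real.rpow_mul h0]; norm_num
    have h := fp_poly _ hs
    rw [e7, e9] at h
    have e : 1 + v - 1 = v := by ring
    rw [e] at h
    exact h
  have k1 := key w h1
  have k2 := key (-w) (by linarith)
  have k3 : (1 + 2/7 * w^2) ^ (9/14 : ℝ) ≤ 1 + (9/14 : ℝ) * (2/7 * w^2) :=
    _root_.rpow_one_add_le_one_add_mul_self (by nlinarith [sq_nonneg w]) (by norm_num) (by norm_num)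
  have e : 1 + -w = 1 - w := by ring
  rw [e] at k2
  nlinarith [k1, k2, k3]

lemma fp_sq (x : ℝ) (hx : 0 ≤ x) : (x ^ 2) ^ (9/14 : ℝ) = x ^ (9/7 : ℝ) := by
  rw [← Real.rpow_natCast, ← Real.rpow_mul hx]; norm_num

/-- two point inequality for real numbers -/
lemma fp_two (a b : ℝ) (ha : 0 ≤ a) (hb : 0 ≤ b) :
    (((a+b)/2)^2 + 2/7 * ((a-b)/2)^2) ^ (9/14 : ℝ) ≤ (a ^ (9/7 : ℝ) + b ^ (9/7 : ℝ)) / 2 := by
  rcases (add_nonneg ha hb).eq_or_lt with h | h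
  · have ha0 : a = 0 := by linarith
    have hb0 : b = 0 := by linarith
    rw [ha0, hb0]
    norm_num
  · obtain ⟨u, hu⟩ : ∃ u, u = (a+b)/2 := ⟨_, rfl⟩
    have hu0 : 0 < u := by rw [hu]; linarith
    obtain ⟨w, hw⟩ : ∃ w, w = (a-b)/2/u := ⟨_, rfl⟩
    have hwu : w * u = (a-b)/2 := by rw [hw]; field_simp
    have e1 : a = u * (1 + w) := by linarith [hwu, hu, mul_comm w u]
    have e2 : b = u * (1 - w) := by linarith [hwu, hu, mul_comm w u]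
    have h1 : -1 ≤ w := by
      by_contra hc
      push Not at hc
      have : u * (1 + w) < 0 := by
        apply mul_neg_of_pos_of_neg hu0; linarith
      linarith
    have h2 : w ≤ 1 := by
      by_contra hc
      push Not at hc
      have : u * (1 - w) < 0 := by
        apply mul_neg_of_pos_of_neg hu0; linarith
      linarith
    have h := fp_two1 w h1 h2
    have e3 : ((a+b)/2)^2 + 2/7 * ((a-b)/2)^2 = u^2 * (1 + 2/7 * w^2) := by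
      rw [← hu, ← hwu]; ring
    rw [e3, Real.mul_rpow (by positivity) (by positivity), fp_sq u hu0.le, e1, e2,
      Real.mul_rpow hu0.le (by linarith), Real.mul_rpow hu0.le (by linarith)]
    have h3 := mul_le_mul_of_nonneg_left h (Real.rpow_nonneg hu0.le (9/7 : ℝ))
    linarith

/-- two point inequality for complex numbers -/
lemma fp_twoC (x y : ℂ) :
    (‖x‖ ^ 2 + 2/7 * ‖y‖ ^ 2) ^ (9/14 : ℝ) ≤
      (‖x + y‖ ^ (9/7 : ℝ) + ‖x - y‖ ^ (9/7 : ℝ)) / 2 := by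
  refine le_trans ?_ (fp_two ‖x + y‖ ‖x - y‖ (norm_nonneg _) (norm_nonneg _))
  apply Real.rpow_le_rpow (by positivity) _ (by norm_num)
  have hp := parallelogram_law_with_norm ℝ x y
  have ht : 2 * ‖x‖ ≤ ‖x + y‖ + ‖x - y‖ := by
    have h := norm_add_le (x + y) (x - y)
    have e : x + y + (x - y) = 2 * x := by ring
    rw [e, norm_mul] at h
    have e2 : ‖(2 : ℂ)‖ = 2 := by simp
    rw [e2] at h
    exact h
  have hx := norm_nonneg x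
  nlinarith [mul_self_le_mul_self (by positivity : (0:ℝ) ≤ 2 * ‖x‖) ht]

/-- concavity in the form used below -/
lemma fp_conc (s s' t : ℝ) (hs : 0 ≤ s) (hss : s ≤ s') (ht : 0 ≤ t) :
    (s' + t) ^ (9/14 : ℝ) - s' ^ (9/14 : ℝ) ≤ (s + t) ^ (9/14 : ℝ) - s ^ (9/14 : ℝ) := by
  rcases (add_nonneg (sub_nonneg.mpr hss) ht).eq_or_lt with h | h
  · have h1 : s' = s := by linarith
    rw [h1]
  · have hc := Real.concaveOn_rpow (p := (9/14 : ℝ)) (by norm_num) (by norm_num)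
    obtain ⟨l, hl⟩ : ∃ l, l = (s' - s) / (s' - s + t) := ⟨_, rfl⟩
    have hl0 : 0 ≤ l := by rw [hl]; exact div_nonneg (by linarith) h.le
    have hl1 : l ≤ 1 := by rw [hl, div_le_one h]; linarith
    have hlm : l * (s' - s + t) = s' - s := by rw [hl]; field_simp
    have c1 := hc.2 (Set.mem_Ici.mpr hs) (Set.mem_Ici.mpr (by linarith : (0:ℝ) ≤ s' + t))
      (by linarith : (0:ℝ) ≤ 1 - l) hl0 (by ring)
    have c2 := hc.2 (Set.mem_Ici.mpr hs) (Set.mem_Ici.mpr (by linarith : (0:ℝ) ≤ s' + t))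
      hl0 (by linarith : (0:ℝ) ≤ 1 - l) (by ring)
    simp only [smul_eq_mul] at c1 c2
    have e1 : (1 - l) * s + l * (s' + t) = s' := by linarith
    have e2 : l * s + (1 - l) * (s' + t) = s + t := by linarith
    rw [e1] at c1
    rw [e2] at c2
    linarith

/-- concavity in the increment -/
lemma fp_conc2 (r d : ℝ) (hr : 0 ≤ r) (hd : 0 ≤ d) :
    2/21 * ((r + d) ^ (9/14 : ℝ) - r ^ (9/14 : ℝ)) ≤
      (r + 2/21 * d) ^ (9/14 : ℝ) - r ^ (9/14 : ℝ) := by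
  have hc := Real.concaveOn_rpow (p := (9/14 : ℝ)) (by norm_num) (by norm_num)
  have c1 := hc.2 (Set.mem_Ici.mpr hr) (Set.mem_Ici.mpr (by linarith : (0:ℝ) ≤ r + d))
    (by norm_num : (0:ℝ) ≤ 19/21) (by norm_num : (0:ℝ) ≤ 2/21) (by norm_num)
  simp only [smul_eq_mul] at c1
  have e1 : 19/21 * r + 2/21 * (r + d) = r + 2/21 * d := by ring
  rw [e1] at c1
  linarith

/-- Jensen for four numbers -/
lemma fp_jen (a b c d : ℝ) (ha : 0 ≤ a) (hb : 0 ≤ b) (hc : 0 ≤ c) (hd : 0 ≤ d) :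
    (1/4 : ℝ) * (a ^ (9/14 : ℝ) + b ^ (9/14 : ℝ) + c ^ (9/14 : ℝ) + d ^ (9/14 : ℝ)) ≤
      ((a + b + c + d) / 4) ^ (9/14 : ℝ) := by
  have hh := Real.concaveOn_rpow (p := (9/14 : ℝ)) (by norm_num) (by norm_num)
  have c1 := hh.2 (Set.mem_Ici.mpr ha) (Set.mem_Ici.mpr hb)
    (by norm_num : (0:ℝ) ≤ 1/2) (by norm_num : (0:ℝ) ≤ 1/2) (by norm_num)
  have c2 := hh.2 (Set.mem_Ici.mpr hc) (Set.mem_Ici.mpr hd)
    (by norm_num : (0:ℝ) ≤ 1/2) (by norm_num : (0:ℝ) ≤ 1/2) (by norm_num)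
  have c3 := hh.2 (Set.mem_Ici.mpr (by linarith : (0:ℝ) ≤ 1/2 * a + 1/2 * b))
    (Set.mem_Ici.mpr (by linarith : (0:ℝ) ≤ 1/2 * c + 1/2 * d))
    (by norm_num : (0:ℝ) ≤ 1/2) (by norm_num : (0:ℝ) ≤ 1/2) (by norm_num)
  simp only [smul_eq_mul] at c1 c2 c3
  have e : 1/2 * (1/2 * a + 1/2 * b) + 1/2 * (1/2 * c + 1/2 * d) = (a + b + c + d) / 4 := by ring
  rw [e] at c3
  linarith

theorem fourp (c al be A B : ℂ) : (1/4 : ℝ) * ∑ x : Bool × Bool,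
      ((‖c‖ ^ 2 + ‖al + zt x * A‖ ^ 2 + ‖be + zt x * B‖ ^ 2) ^ (9/14 : ℝ)
        - 21 * ‖c + (al + zt x * A) + conj (be + zt x * B)‖ ^ (9/7 : ℝ)) ≤
    (‖c‖ ^ 2 + ‖al‖ ^ 2 + ‖be‖ ^ 2) ^ (9/14 : ℝ) - 21 * ‖c + al + conj be‖ ^ (9/7 : ℝ) := by
  obtain ⟨R, hR⟩ : ∃ R, R = ‖c‖ ^ 2 + ‖al‖ ^ 2 + ‖be‖ ^ 2 := ⟨_, rfl⟩
  obtain ⟨D, hD⟩ : ∃ D, D = ‖A‖ ^ 2 + ‖B‖ ^ 2 := ⟨_, rfl⟩
  obtain ⟨x, hx⟩ : ∃ x, x = c + al + conj be := ⟨_, rfl⟩
  have hR0 : 0 ≤ R := by rw [hR]; positivity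
  have hD0 : 0 ≤ D := by rw [hD]; positivity
  rw [sumQ]
  simp only [zt]
  have n2 : ∀ z : ℂ, ‖z‖ ^ 2 = z.re ^ 2 + z.im ^ 2 := by
    intro z
    rw [← Complex.normSq_eq_norm_sq, Complex.normSq_apply]; ring
  -- first term
  have j := fp_jen (‖c‖ ^ 2 + ‖al + 1 * A‖ ^ 2 + ‖be + 1 * B‖ ^ 2)
    (‖c‖ ^ 2 + ‖al + I * A‖ ^ 2 + ‖be + I * B‖ ^ 2)
    (‖c‖ ^ 2 + ‖al + -1 * A‖ ^ 2 + ‖be + -1 * B‖ ^ 2)
    (‖c‖ ^ 2 + ‖al + -I * A‖ ^ 2 + ‖be + -I * B‖ ^ 2)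
    (by positivity) (by positivity) (by positivity) (by positivity)
  have ej : ((‖c‖ ^ 2 + ‖al + 1 * A‖ ^ 2 + ‖be + 1 * B‖ ^ 2)
    + (‖c‖ ^ 2 + ‖al + I * A‖ ^ 2 + ‖be + I * B‖ ^ 2)
    + (‖c‖ ^ 2 + ‖al + -1 * A‖ ^ 2 + ‖be + -1 * B‖ ^ 2)
    + (‖c‖ ^ 2 + ‖al + -I * A‖ ^ 2 + ‖be + -I * B‖ ^ 2)) / 4 = R + D := by
    rw [hR, hD]
    simp only [n2, Complex.add_re, Complex.add_im, Complex.mul_re, Complex.mul_im,
      Complex.neg_re, Complex.neg_im, Complex.I_re, Complex.I_im, Complex.one_re, Complex.one_im]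
    ring
  rw [ej] at j
  -- second term
  have e1 : c + (al + 1 * A) + conj (be + 1 * B) = x + (A + conj B) := by
    rw [hx]; simp only [map_add, map_mul, map_one]; ring
  have e2 : c + (al + I * A) + conj (be + I * B) = x + I * (A - conj B) := by
    rw [hx]; simp only [map_add, map_mul, Complex.conj_I]; ring
  have e3 : c + (al + -1 * A) + conj (be + -1 * B) = x - (A + conj B) := by
    rw [hx]; simp only [map_add, map_mul, map_neg, map_one]; ring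
  have e4 : c + (al + -I * A) + conj (be + -I * B) = x - I * (A - conj B) := by
    rw [hx]; simp only [map_add, map_mul, map_neg, Complex.conj_I]; ring
  rw [e1, e2, e3, e4, ← hx, ← hR]
  have t1 := fp_twoC x (A + conj B)
  have t2 := fp_twoC x (I * (A - conj B))
  have ey : ‖A + conj B‖ ^ 2 + ‖I * (A - conj B)‖ ^ 2 = 2 * D := by
    rw [hD]
    simp only [n2, Complex.add_re, Complex.add_im, Complex.sub_re, Complex.sub_im, Complex.mul_re,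
      Complex.mul_im, Complex.conj_re, Complex.conj_im, Complex.I_re, Complex.I_im]
    ring
  -- |x|^2 <= 3 R
  have hxR : ‖x‖ ^ 2 ≤ 3 * R := by
    have h1 : ‖x‖ ≤ ‖c‖ + ‖al‖ + ‖be‖ := by
      rw [hx]
      calc ‖c + al + conj be‖ ≤ ‖c‖ + ‖al‖ + ‖conj be‖ := norm_add₃_le
        _ = _ := by rw [RCLike.norm_conj]
    have h2 := mul_self_le_mul_self (norm_nonneg x) h1
    rw [hR]
    nlinarith [sq_nonneg (‖c‖ - ‖al‖), sq_nonneg (‖c‖ - ‖be‖), sq_nonneg (‖al‖ - ‖be‖)]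
  -- lower bound for the pairs
  have low : (‖x‖ ^ 2 + 2/7 * D) ^ (9/14 : ℝ) + (‖x‖ ^ 2) ^ (9/14 : ℝ) ≤
      (‖x‖ ^ 2 + 2/7 * ‖A + conj B‖ ^ 2) ^ (9/14 : ℝ)
        + (‖x‖ ^ 2 + 2/7 * ‖I * (A - conj B)‖ ^ 2) ^ (9/14 : ℝ) := by
    rcases le_total D (‖A + conj B‖ ^ 2) with h | h
    · apply add_le_add
      · apply Real.rpow_le_rpow (by positivity) _ (by norm_num)
        linarith
      · apply Real.rpow_le_rpow (by positivity) _ (by norm_num)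
        nlinarith [sq_nonneg ‖I * (A - conj B)‖]
    · have h' : D ≤ ‖I * (A - conj B)‖ ^ 2 := by linarith
      rw [add_comm ((‖x‖ ^ 2 + 2/7 * D) ^ (9/14 : ℝ))]
      apply add_le_add
      · apply Real.rpow_le_rpow (by positivity) _ (by norm_num)
        nlinarith [sq_nonneg ‖A + conj B‖]
      · apply Real.rpow_le_rpow (by positivity) _ (by norm_num)
        linarith
  -- gain
  have g1 := fp_conc (‖x‖ ^ 2) (3 * R) (2/7 * D) (by positivity) hxR (by positivity)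
  have g2 := fp_conc2 R D hR0 hD0
  have g3 : (3 * R + 2/7 * D) ^ (9/14 : ℝ) - (3 * R) ^ (9/14 : ℝ) =
      3 ^ (9/14 : ℝ) * ((R + 2/21 * D) ^ (9/14 : ℝ) - R ^ (9/14 : ℝ)) := by
    have e : 3 * R + 2/7 * D = 3 * (R + 2/21 * D) := by ring
    rw [e, Real.mul_rpow (by norm_num) (by positivity), Real.mul_rpow (by norm_num) hR0]
    ring
  have g4 : (1 : ℝ) ≤ 3 ^ (9/14 : ℝ) := Real.one_le_rpow (by norm_num) (by norm_num)
  have g5 : 0 ≤ (R + 2/21 * D) ^ (9/14 : ℝ) - R ^ (9/14 : ℝ) := by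
    rw [sub_nonneg]
    apply Real.rpow_le_rpow hR0 _ (by norm_num)
    linarith
  have g6 := mul_le_mul_of_nonneg_right g4 g5
  rw [fp_sq _ (norm_nonneg x)] at low g1
  linarith

end Pool.Agent.PLH
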