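import Pool.Agent.Lib_helper49.Mix.Rules

/-! # Composition with balanced functions of few variables -/

set_option autoImplicit false
set_option linter.unusedSectionVars false

namespace Pool.Agent.Lib_helper80.Gad

open Finset Pool.Agent.Lib_helper30.AA Pool.Agent.Lib_helper49.Mix
open Pool.Agent.Lib_helper23.GP (inf_nonneg ex_mix mix_eq_left mix_eq_right)

variable {V W : Type} [Fintype V] [DecidableEq V] [Fintype W] [DecidableEq W]

/-- independence -/
theorem ex_mul_indep (T : Finset V) {q r : (V → Bool) → ℝ}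
    (hq : ∀ x y : V → Bool, (∀ v, v ∉ T → x v = y v) → q x = q y)
    (hr : ∀ x y : V → Bool, (∀ v ∈ T, x v = y v) → r x = r y) :
    ex (fun x => q x * r x) = ex q * ex r := by
  rw [← ex_mix T (fun x => q x * r x)]
  have h1 : (fun x => ex (fun y => q (mix T x y) * r (mix T x y))) =
      fun x => ex r * q x := by
    funext x
    have h2 : (fun y => q (mix T x y) * r (mix T x y)) = fun y => q x * r y := by
      funext y
      rw [mix_eq_left hq, mix_eq_right hr]
    rw [h2, ex_const_mul, mul_comm]
  rw [h1, ex_const_mul, mul_comm]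

/-- average over the variables in `T` -/
noncomputable def av (T : Finset V) (F : (V → Bool) → ℝ) (x : V → Bool) : ℝ :=
  ex (fun y => F (mix T x y))

theorem av_indep (T : Finset V) (F : (V → Bool) → ℝ) (x y : V → Bool)
    (h : ∀ v, v ∉ T → x v = y v) : av T F x = av T F y := by
  unfold av
  have h1 : ∀ z : V → Bool, mix T x z = mix T y z := by
    intro z
    funext v
    unfold mix
    by_cases hv : v ∈ T
    · simp [hv]
    · simp [hv, h v hv]
  simp_rw [h1]

theorem coef_av (T : Finset V) (F : (V → Bool) → ℝ) (S : Finset V) :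
    coef (av T F) S = if Disjoint S T then coef F S else 0 := by
  by_cases hST : Disjoint S T
  · rw [if_pos hST]
    have h1 : ex (fun x => av T F x * chi S x) = ex (fun x => F x * chi S x) := by
      rw [← ex_mix T (fun x => F x * chi S x)]
      refine congrArg ex (funext fun x => ?_)
      have h2 : ∀ y : V → Bool, chi S (mix T x y) = chi S x := by
        intro y
        unfold chi
        refine Finset.prod_congr rfl fun v hv => ?_
        have : v ∉ T := Finset.disjoint_left.1 hST hv
        simp [mix, this]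
      unfold av
      simp_rw [h2]
      rw [mul_comm, ← ex_const_mul]
      exact congrArg ex (funext fun y => mul_comm _ _)
    exact h1
  · rw [if_neg hST]
    refine coef_eq_zero_of_dep (J := Tᶜ) (fun x y hxy => av_indep T F x y fun v hv =>
      hxy v (Finset.mem_compl.2 hv)) ?_
    intro hsub
    exact hST (Finset.disjoint_left.2 fun i hi hT => (Finset.mem_compl.1 (hsub hi)) hT)

theorem ex_sub_av_le (T : Finset V) (F : (V → Bool) → ℝ) :
    ex (fun x => (F x - av T F x) ^ 2) ≤ ∑ v ∈ T, Pool.Agent.Lib_helper23.GP.inf F v := by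
  have h1 : ex (fun x => (F x - av T F x) ^ 2) = ∑ S : Finset V, (if Disjoint S T then 0 else
      coef F S ^ 2) := by
    have h2 := parseval_sq (fun x => F x - av T F x)
    unfold ex
    rw [← h2]
    refine Finset.sum_congr rfl fun S _ => ?_
    rw [coef_sub, coef_av]
    split_ifs <;> ring
  have h3 : ∀ v, Pool.Agent.Lib_helper23.GP.inf F v =
      ∑ S : Finset V, if v ∈ S then coef F S ^ 2 else 0 := by
    intro v
    rw [← Finset.sum_filter]
    exact influence_eq F v
  rw [h1]
  simp_rw [h3]
  rw [Finset.sum_comm]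
  refine Finset.sum_le_sum fun S _ => ?_
  by_cases hST : Disjoint S T
  · rw [if_pos hST]
    exact Finset.sum_nonneg fun v _ => by split_ifs <;> positivity
  · rw [if_neg hST]
    rw [Finset.not_disjoint_iff] at hST
    obtain ⟨v, hvS, hvT⟩ := hST
    refine le_trans ?_ (Finset.single_le_sum (f := fun v => if v ∈ S then coef F S ^ 2 else 0)
      (fun v _ => by split_ifs <;> positivity) hvT)
    rw [if_pos hvS]

/-! ### the kernel -/

/-- the kernel -/
noncomputable def K (r : W → (V → Bool) → ℝ) (x : V → Bool) (z : W → Bool) : ℝ :=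
  ∏ w, (1 + (-1) ^ (z w).toNat * r w x)

theorem K_nonneg {r : W → (V → Bool) → ℝ} (hb : ∀ w x, |r w x| ≤ 1) (x : V → Bool)
    (z : W → Bool) : 0 ≤ K r x z := by
  refine Finset.prod_nonneg fun w _ => ?_
  have h1 := abs_le.1 (hb w x)
  cases z w <;> simp <;> linarith

theorem ex_K_right (r : W → (V → Bool) → ℝ) (x : V → Bool) : ex (fun z => K r x z) = 1 := by
  have h2 : ∏ w : W, ∑ b : Bool, (1 + (-1 : ℝ) ^ b.toNat * r w x) =
      ∑ z : W → Bool, ∏ w, (1 + (-1 : ℝ) ^ (z w).toNat * r w x) := by
    rw [Finset.prod_univ_sum, Fintype.piFinset_univ]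
  have h3 : ∀ w : W, ∑ b : Bool, (1 + (-1 : ℝ) ^ b.toNat * r w x) = 2 := by
    intro w
    simp
    ring
  unfold ex K
  rw [← h2]
  simp_rw [h3]
  rw [Finset.prod_const, Finset.card_univ]
  exact inv_mul_cancel₀ (pow_ne_zero _ two_ne_zero)

/-- the hypotheses on the inner functions -/
structure Inner (T : W → Finset V) (r : W → (V → Bool) → ℝ) : Prop where
  disj : ∀ w w', w ≠ w' → Disjoint (T w) (T w')
  dep : ∀ w (x y : V → Bool), (∀ v ∈ T w, x v = y v) → r w x = r w y
  bdd : ∀ w x, |r w x| ≤ 1
  bal : ∀ w, ex (r w) = 0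

theorem ex_K_left {T : W → Finset V} {r : W → (V → Bool) → ℝ} (H : Inner T r) (z : W → Bool) :
    ex (fun x => K r x z) = 1 := by
  unfold K
  have key : ∀ s : Finset W, ex (fun x => ∏ w ∈ s, (1 + (-1) ^ (z w).toNat * r w x)) = 1 := by
    intro s
    induction s using Finset.induction_on with
    | empty => simp only [Finset.prod_empty]; exact ex_const 1
    | insert w s hw ih =>
      have h1 : (fun x => ∏ w ∈ insert w s, (1 + (-1) ^ (z w).toNat * r w x)) = fun x =>
          (∏ w ∈ s, (1 + (-1) ^ (z w).toNat * r w x)) * (1 + (-1) ^ (z w).toNat * r w x) := by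
        funext x
        rw [Finset.prod_insert hw, mul_comm]
      rw [h1, ex_mul_indep (T w), ih, ex_add, ex_const, ex_const_mul, H.bal w]
      · ring
      · intro x y hxy
        refine Finset.prod_congr rfl fun w' hw' => ?_
        have hne : w' ≠ w := fun h => hw (h ▸ hw')
        rw [H.dep w' x y fun v hv => hxy v (Finset.disjoint_left.1 (H.disj w' w hne) hv)]
      · intro x y hxy
        rw [H.dep w x y hxy]
  exact key Finset.univ

theorem Inner.erase {T : W → Finset V} {r : W → (V → Bool) → ℝ} (H : Inner T r) (w : W) :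
    Inner T (Function.update r w fun _ => 0) := by
  refine ⟨H.disj, fun w' x y h => ?_, fun w' x => ?_, fun w' => ?_⟩
  · by_cases hw : w' = w
    · subst hw; simp
    · rw [Function.update_of_ne hw]; exact H.dep w' x y h
  · by_cases hw : w' = w
    · subst hw; simp
    · rw [Function.update_of_ne hw]; exact H.bdd w' x
  · by_cases hw : w' = w
    · subst hw; rw [Function.update_self]; exact ex_const 0
    · rw [Function.update_of_ne hw]; exact H.bal w'

theorem K_split (r : W → (V → Bool) → ℝ) (w : W) (x : V → Bool) (z : W → Bool) :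
    K r x z = (1 + (-1) ^ (z w).toNat * r w x) * K (Function.update r w fun _ => 0) x z := by
  unfold K
  rw [← Finset.mul_prod_erase univ _ (mem_univ w), ← Finset.mul_prod_erase univ (fun w' =>
    (1 + (-1) ^ (z w').toNat * (Function.update r w fun _ => 0) w' x)) (mem_univ w),
    Function.update_self]
  rw [mul_zero, add_zero, one_mul]
  congr 1
  refine Finset.prod_congr rfl fun w' hw' => ?_
  rw [Function.update_of_ne (Finset.ne_of_mem_erase hw')]

theorem K_erase_flip (r : W → (V → Bool) → ℝ) (w : W) (x : V → Bool) (z : W → Bool) (b : Bool) :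
    K (Function.update r w fun _ => 0) x (Function.update z w b) =
      K (Function.update r w fun _ => 0) x z := by
  unfold K
  refine Finset.prod_congr rfl fun w' _ => ?_
  by_cases hw : w' = w
  · subst hw; simp
  · rw [Function.update_of_ne hw, Function.update_of_ne hw]

/-- weighted Cauchy-Schwarz -/
theorem sq_ex_mul_le {k A : (V → Bool) → ℝ} (hk : ∀ x, 0 ≤ k x) (hk1 : ex k = 1) :
    (ex (fun x => A x * k x)) ^ 2 ≤ ex (fun x => A x ^ 2 * k x) := by
  have h := ex_mul_sq_le (fun x => A x * Real.sqrt (k x)) (fun x => Real.sqrt (k x))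
  have e1 : (fun x => A x * Real.sqrt (k x) * Real.sqrt (k x)) = fun x => A x * k x := by
    funext x
    rw [mul_assoc, Real.mul_self_sqrt (hk x)]
  have e2 : (fun x => (A x * Real.sqrt (k x)) ^ 2) = fun x => A x ^ 2 * k x := by
    funext x
    rw [mul_pow, Real.sq_sqrt (hk x)]
  have e3 : (fun x => Real.sqrt (k x) ^ 2) = k := by
    funext x
    rw [Real.sq_sqrt (hk x)]
  rw [e1, e2, e3, hk1, mul_one] at h
  exact h

/-- Fubini -/
theorem ex_swap (A : (V → Bool) → (W → Bool) → ℝ) :
    ex (fun x => ex (fun z => A x z)) = ex (fun z => ex (fun x => A x z)) := by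
  unfold ex
  simp_rw [← Finset.mul_sum]
  rw [Finset.sum_comm]
  ring

/-- the transported function -/
noncomputable def G (r : W → (V → Bool) → ℝ) (F : (V → Bool) → ℝ) (z : W → Bool) : ℝ :=
  ex (fun x => F x * K r x z)

/-- the composed function -/
noncomputable def comp (q : (W → Bool) → ℝ) (r : W → (V → Bool) → ℝ) (x : V → Bool) : ℝ :=
  ∑ z : W → Bool, q z * ∏ w, ((1 + (-1) ^ (z w).toNat * r w x) / 2)

theorem comp_eq (q : (W → Bool) → ℝ) (r : W → (V → Bool) → ℝ) (x : V → Bool) :
    comp q r x = ex (fun z => q z * K r x z) := by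
  unfold comp ex K
  rw [Finset.mul_sum]
  refine Finset.sum_congr rfl fun z _ => ?_
  rw [Finset.prod_div_distrib, Finset.prod_const, Finset.card_univ]
  ring

theorem cov_comp {T : W → Finset V} {r : W → (V → Bool) → ℝ} (H : Inner T r)
    (q : (W → Bool) → ℝ) (F : (V → Bool) → ℝ) : cov (comp q r) F = cov q (G r F) := by
  have e1 : ex (fun x => comp q r x * F x) = ex (fun z => q z * G r F z) := by
    have h1 : (fun x => comp q r x * F x) = fun x => ex (fun z => q z * (F x * K r x z)) := by
      funext x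
      rw [comp_eq, mul_comm, ← ex_const_mul]
      exact congrArg ex (funext fun z => by ring)
    rw [h1, ex_swap]
    refine congrArg ex (funext fun z => ?_)
    rw [ex_const_mul]
    rfl
  have e2 : ex (comp q r) = ex q := by
    have h1 : comp q r = fun x => ex (fun z => q z * K r x z) := funext fun x => comp_eq q r x
    rw [h1, ex_swap]
    refine congrArg ex (funext fun z => ?_)
    rw [ex_const_mul, ex_K_left H, mul_one]
  have e3 : ex (G r F) = ex F := by
    have h1 : G r F = fun z => ex (fun x => F x * K r x z) := rfl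
    rw [h1, ← ex_swap (fun x z => F x * K r x z)]
    refine congrArg ex (funext fun x => ?_)
    rw [ex_const_mul, ex_K_right, mul_one]
  unfold cov
  rw [e1, e2, e3]

theorem G_sq {T : W → Finset V} {r : W → (V → Bool) → ℝ} (H : Inner T r)
    (F : (V → Bool) → ℝ) : ex (fun z => G r F z ^ 2) ≤ ex (fun x => F x ^ 2) := by
  have h1 : ex (fun z => G r F z ^ 2) ≤ ex (fun z => ex (fun x => F x ^ 2 * K r x z)) :=
    ex_mono fun z => sq_ex_mul_le (fun x => K_nonneg H.bdd x z) (ex_K_left H z)
  refine h1.trans (le_of_eq ?_)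
  rw [← ex_swap (fun x z => F x ^ 2 * K r x z)]
  refine congrArg ex (funext fun x => ?_)
  rw [ex_const_mul, ex_K_right, mul_one]

theorem G_inf {T : W → Finset V} {r : W → (V → Bool) → ℝ} (H : Inner T r)
    (F : (V → Bool) → ℝ) (w : W) : Pool.Agent.Lib_helper23.GP.inf (G r F) w ≤
      ∑ v ∈ T w, Pool.Agent.Lib_helper23.GP.inf F v := by
  refine le_trans ?_ (ex_sub_av_le (T w) F)
  obtain ⟨r', hr'⟩ : ∃ r' : W → (V → Bool) → ℝ, r' = Function.update r w fun _ => 0 := ⟨_, rfl⟩
  have H' : Inner T r' := by rw [hr']; exact H.erase w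
  have hK' : ∀ z x y, (∀ v, v ∉ T w → x v = y v) → K r' x z = K r' y z := by
    intro z x y hxy
    unfold K
    refine Finset.prod_congr rfl fun w' _ => ?_
    by_cases hw : w' = w
    · subst hw; rw [hr', Function.update_self]
    · rw [H'.dep w' x y fun v hv => hxy v (Finset.disjoint_left.1 (H.disj w' w hw) hv)]
  have h1 : ∀ z : W → Bool, (G r F z - G r F (Function.update z w (!z w))) / 2 =
      (-1) ^ (z w).toNat * ex (fun x => ((F x - av (T w) F x) * r w x) * K r' x z) := by
    intro z
    have e1 : G r F z = ex (fun x => F x * ((1 + (-1) ^ (z w).toNat * r w x) * K r' x z)) := by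
      unfold G
      refine congrArg ex (funext fun x => ?_)
      rw [K_split r w x z, hr']
    have e2 : G r F (Function.update z w (!z w)) =
        ex (fun x => F x * ((1 - (-1) ^ (z w).toNat * r w x) * K r' x z)) := by
      unfold G
      refine congrArg ex (funext fun x => ?_)
      rw [K_split r w x (Function.update z w (!z w)), K_erase_flip, Function.update_self, hr',
        sign_mul_not]
      ring
    have e3 : ex (fun x => (av (T w) F x * K r' x z) * r w x) = 0 := by
      rw [ex_mul_indep (T w), H.bal w, mul_zero]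
      · intro x y hxy
        rw [av_indep (T w) F x y hxy, hK' z x y hxy]
      · exact H.dep w
    have e4 : ex (fun x => ((F x - av (T w) F x) * r w x) * K r' x z) =
        ex (fun x => F x * r w x * K r' x z) := by
      have : (fun x => ((F x - av (T w) F x) * r w x) * K r' x z) = fun x =>
          F x * r w x * K r' x z - (av (T w) F x * K r' x z) * r w x := by
        funext x; ring
      rw [this, ex_sub, e3, sub_zero]
    rw [e4, e1, e2, ← ex_sub, ← ex_const_mul, div_eq_inv_mul, ← ex_const_mul]
    exact congrArg ex (funext fun x => by ring)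
  have h2 : Pool.Agent.Lib_helper23.GP.inf (G r F) w ≤
      ex (fun z => ex (fun x => (F x - av (T w) F x) ^ 2 * K r' x z)) := by
    unfold Pool.Agent.Lib_helper23.GP.inf
    refine ex_mono fun z => ?_
    rw [h1 z, mul_pow, ← pow_mul, mul_comm (z w).toNat 2, pow_mul, neg_one_sq, one_pow, one_mul]
    refine (sq_ex_mul_le (fun x => K_nonneg H'.bdd x z) (ex_K_left H' z)).trans
      (ex_mono fun x => ?_)
    refine mul_le_mul_of_nonneg_right ?_ (K_nonneg H'.bdd x z)
    rw [mul_pow]
    exact mul_le_of_le_one_right (sq_nonneg _) ((sq_le_one_iff_abs_le_one _).2 (H.bdd w x))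
  refine h2.trans (le_of_eq ?_)
  rw [← ex_swap (fun x z => (F x - av (T w) F x) ^ 2 * K r' x z)]
  refine congrArg ex (funext fun x => ?_)
  rw [ex_const_mul, ex_K_right, mul_one]

theorem inf_le_ex_sq (F : (V → Bool) → ℝ) (v : V) :
    Pool.Agent.Lib_helper23.GP.inf F v ≤ ex (fun x => F x ^ 2) := by
  have h1 : Pool.Agent.Lib_helper23.GP.inf F v ≤
      ex (fun x => (1/2) * F x ^ 2 + (1/2) * F (flip v x) ^ 2) := by
    refine ex_mono fun x => ?_
    show ((F x - F (flip v x)) / 2) ^ 2 ≤ _
    nlinarith [sq_nonneg (F x + F (flip v x))]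
  refine h1.trans (le_of_eq ?_)
  rw [ex_add, ex_const_mul, ex_const_mul, ex_flip (fun x => F x ^ 2) v]
  ring

/-- **The rule**: composition with balanced functions of at most `M` variables. -/
theorem bd_comp {T : W → Finset V} {r : W → (V → Bool) → ℝ} (H : Inner T r) {M : ℕ}
    (hM : ∀ w, (T w).card ≤ M) {q : (W → Bool) → ℝ} {a : ℝ} (Hq : Bd q a) :
    Bd (comp q r) ((M : ℝ) ^ (1 / 40 : ℝ) * a) := by
  have hM0 : (0 : ℝ) ≤ M := Nat.cast_nonneg M
  refine ⟨mul_nonneg (Real.rpow_nonneg hM0 _) Hq.1, fun F I hI hI1 hF hF2 => ?_⟩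
  rw [cov_comp H]
  have h1 : ∀ w, Pool.Agent.Lib_helper23.GP.inf (G r F) w ≤ min 1 (M * I) := by
    intro w
    refine le_min (((inf_le_ex_sq _ w).trans (G_sq H F)).trans hF) ((G_inf H F w).trans ?_)
    calc ∑ v ∈ T w, Pool.Agent.Lib_helper23.GP.inf F v ≤ ∑ v ∈ T w, I :=
          Finset.sum_le_sum fun v _ => hF2 v
      _ = (T w).card * I := by rw [Finset.sum_const, nsmul_eq_mul]
      _ ≤ M * I := mul_le_mul_of_nonneg_right (Nat.cast_le.2 (hM w)) hI
  have h2 : 0 ≤ min 1 ((M : ℝ) * I) := le_min zero_le_one (mul_nonneg hM0 hI)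
  refine (Hq.2 (G r F) _ h2 (min_le_left _ _) ((G_sq H F).trans hF) h1).trans ?_
  calc a * (min 1 ((M : ℝ) * I)) ^ (1 / 40 : ℝ) ≤ a * ((M : ℝ) * I) ^ (1 / 40 : ℝ) :=
        mul_le_mul_of_nonneg_left (Real.rpow_le_rpow h2 (min_le_right _ _) (by norm_num)) Hq.1
    _ = (M : ℝ) ^ (1 / 40 : ℝ) * a * I ^ (1 / 40 : ℝ) := by
        rw [Real.mul_rpow hM0 hI]; ring

end Pool.Agent.Lib_helper80.Gad
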